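import Pool.Agent.helper91.SI.Spec

set_option autoImplicit false

namespace Pool.Agent.helper91.SI

open Pool.Agent.helper20.IG (IsIndepDom IsISet iGraph)

theorem TRF_dom {V W : Type} (G : SimpleGraph V) (H : SimpleGraph W) (e : G ≃g H) (S : Finset V)
    (h : IsIndepDom G S) : IsIndepDom H (S.map e.toEquiv.toEmbedding) := by
  refine ⟨?_, ?_⟩
  · intro a ha b hb hab
    rw [Finset.mem_map] at ha hb
    obtain ⟨x, hx, rfl⟩ := ha
    obtain ⟨y, hy, rfl⟩ := hb
    have h1 : H.Adj (e x) (e y) := hab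
    exact h.1 x hx y hy (e.map_adj_iff.1 h1)
  · intro w hw
    have h1 : e.symm w ∉ S := by
      intro h2
      apply hw
      rw [Finset.mem_map]
      exact ⟨e.symm w, h2, e.apply_symm_apply w⟩
    obtain ⟨u, hu, huv⟩ := h.2 _ h1
    refine ⟨e u, ?_, ?_⟩
    · rw [Finset.mem_map]
      exact ⟨u, hu, rfl⟩
    · have h3 := e.map_adj_iff.2 huv
      rw [e.apply_symm_apply] at h3
      exact h3

theorem TRF_iset {V W : Type} (G : SimpleGraph V) (H : SimpleGraph W) (e : G ≃g H) (S : Finset V)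
    (h : IsISet G S) : IsISet H (S.map e.toEquiv.toEmbedding) := by
  refine ⟨TRF_dom G H e S h.1, ?_⟩
  intro T hT
  have h1 := h.2 _ (TRF_dom H G e.symm T hT)
  rw [Finset.card_map] at h1 ⊢
  exact h1

/-- the induced map -/
def TRF_map {V W : Type} (G : SimpleGraph V) (H : SimpleGraph W) (e : G ≃g H)
    (X : {S : Finset V // IsISet G S}) : {S : Finset W // IsISet H S} :=
  ⟨X.1.map e.toEquiv.toEmbedding, TRF_iset G H e X.1 X.2⟩

theorem TRF_inv {V W : Type} (G : SimpleGraph V) (H : SimpleGraph W) (e : G ≃g H)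
    (X : {S : Finset V // IsISet G S}) : TRF_map H G e.symm (TRF_map G H e X) = X := by
  apply Subtype.ext
  ext x
  simp only [TRF_map, Finset.mem_map]
  constructor
  · rintro ⟨w, ⟨y, hy, rfl⟩, hx⟩
    have h1 : e.symm (e y) = x := hx
    rw [e.symm_apply_apply] at h1
    rw [← h1]
    exact hy
  · intro hx
    exact ⟨e x, ⟨x, hx, rfl⟩, e.symm_apply_apply x⟩

theorem TRF_adj {V W : Type} [DecidableEq V] [DecidableEq W] (G : SimpleGraph V)
    (H : SimpleGraph W) (e : G ≃g H) (X Y : {S : Finset V // IsISet G S})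
    (h : (iGraph G).Adj X Y) : (iGraph H).Adj (TRF_map G H e X) (TRF_map G H e Y) := by
  obtain ⟨hne, u, hu, v, hv, huv, hY⟩ := h
  refine ⟨?_, e u, ?_, e v, ?_, e.map_adj_iff.2 huv, ?_⟩
  · intro h1
    apply hne
    have h2 := congrArg (TRF_map H G e.symm) h1
    rw [TRF_inv, TRF_inv] at h2
    exact h2
  · exact Finset.mem_map.2 ⟨u, hu, rfl⟩
  · exact Finset.mem_map.2 ⟨v, hv, rfl⟩
  · change Y.1.map e.toEquiv.toEmbedding = insert (e v) ((X.1.map e.toEquiv.toEmbedding).erase (e u))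
    rw [hY, Finset.map_insert, Finset.map_erase]
    rfl

/-- TRF -/
theorem TRF : TRF_stmt := by
  intro V W _ _ G H ⟨e⟩
  refine ⟨⟨⟨TRF_map G H e, TRF_map H G e.symm, TRF_inv G H e, ?_⟩, ?_⟩⟩
  · intro Y
    exact TRF_inv H G e.symm Y
  · intro X Y
    constructor
    · intro h
      have h1 := TRF_adj H G e.symm _ _ h
      have h2 : TRF_map H G e.symm (TRF_map G H e X) = X := TRF_inv G H e X
      have h3 : TRF_map H G e.symm (TRF_map G H e Y) = Y := TRF_inv G H e Y
      have h4 : (iGraph G).Adj (TRF_map H G e.symm (TRF_map G H e X))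
        (TRF_map H G e.symm (TRF_map G H e Y)) := h1
      rw [h2, h3] at h4
      exact h4
    · intro h
      exact TRF_adj G H e X Y h

end Pool.Agent.helper91.SI
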